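import Mathlib
import Pool.Agent.W993.MC.Stm

set_option autoImplicit false

/-!
MC-STEP (project of helper993, MP_528be1_nt): going from weight `w` to `w + 2` the dimension of the
space of alternating multiple zeta values grows.
-/

open Filter Topology

namespace Pool.Agent.W970.MC

open Pool.Agent.W993.MC

/-- all letters admissible -/
theorem ins_letters (c : ℕ × ℂ) (hc1 : 1 ≤ c.1) (hc2 : c.2 ^ 2 = 1) :
    ∀ (L : List (ℕ × ℂ)), (∀ p ∈ L, 1 ≤ p.1 ∧ p.2 ^ 2 = 1) →
      ∀ K ∈ ins c L, (∀ p ∈ K, 1 ≤ p.1 ∧ p.2 ^ 2 = 1) ∧ K ≠ [] ∧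
        (K.map Prod.fst).sum = (L.map Prod.fst).sum + c.1
  | [], _ => by
    intro K hK
    simp only [ins, List.mem_singleton] at hK
    subst hK
    refine ⟨?_, by simp, by simp⟩
    intro p hp
    simp only [List.mem_singleton] at hp
    subst hp
    exact ⟨hc1, hc2⟩
  | x :: L, hL => by
    intro K hK
    have hx : 1 ≤ x.1 ∧ x.2 ^ 2 = 1 := hL x (by simp)
    have hL' : ∀ p ∈ L, 1 ≤ p.1 ∧ p.2 ^ 2 = 1 := fun p hp => hL p (by simp [hp])
    simp only [ins, List.mem_cons, List.mem_map] at hK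
    rcases hK with rfl | rfl | ⟨K', hK', rfl⟩
    · refine ⟨?_, by simp, by simp; ring⟩
      intro p hp
      simp only [List.mem_cons] at hp
      rcases hp with rfl | rfl | hp
      · exact ⟨hc1, hc2⟩
      · exact hx
      · exact hL' p hp
    · refine ⟨?_, by simp, by simp; ring⟩
      intro p hp
      simp only [List.mem_cons] at hp
      rcases hp with rfl | hp
      · refine ⟨by simp; omega, ?_⟩
        simp only
        rw [mul_pow, hx.2, hc2, one_mul]
      · exact hL' p hp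
    · obtain ⟨h1, _, h3⟩ := ins_letters c hc1 hc2 L hL' K' hK'
      refine ⟨?_, by simp, ?_⟩
      · intro p hp
        simp only [List.mem_cons] at hp
        rcases hp with rfl | hp
        · exact hx
        · exact h1 p hp
      · simp only [List.map_cons, List.sum_cons, h3]
        ring

theorem ins_head (c : ℕ × ℂ) (hc1 : 1 ≤ c.1) (hc : c ≠ (1, 1)) (L : List (ℕ × ℂ))
    (hL : ∀ p ∈ L, 1 ≤ p.1) (hh : L.head? ≠ some (1, 1)) :
    ∀ K ∈ ins c L, K.head? ≠ some (1, 1) := by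
  intro K hK
  cases L with
  | nil =>
    simp only [ins, List.mem_singleton] at hK
    subst hK
    simpa using hc
  | cons x L =>
    simp only [ins, List.mem_cons, List.mem_map] at hK
    rcases hK with rfl | rfl | ⟨K', hK', rfl⟩
    · simpa using hc
    · have := hL x (by simp)
      intro h
      simp only [List.head?_cons, Option.some.injEq, Prod.mk.injEq] at h
      omega
    · simpa using hh

theorem ins_adm (c : ℕ × ℂ) (hc1 : 1 ≤ c.1) (hc2 : c.2 ^ 2 = 1) (hc : c ≠ (1, 1)) (w : ℕ)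
    (L : List (ℕ × ℂ)) (hL : Adm 2 w L) : ∀ K ∈ ins c L, Adm 2 (w + c.1) K := by
  intro K hK
  obtain ⟨_, h2, h3, h4⟩ := hL
  obtain ⟨k1, k2, k3⟩ := ins_letters c hc1 hc2 L h2 K hK
  exact ⟨k2, k1, by rw [k3, h3], ins_head c hc1 hc L (fun p hp => (h2 p hp).1) h4 K hK⟩

theorem norm_le_one_of_sq {z : ℂ} (h : z ^ 2 = 1) : ‖z‖ ≤ 1 := by
  have h1 : ‖z‖ ^ 2 = 1 := by rw [← norm_pow, h, norm_one]
  nlinarith [norm_nonneg z]

/-- admissible words converge to elements of the space -/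
theorem adm_conv (hcv : S_CV) (w : ℕ) (L : List (ℕ × ℂ)) (hL : Adm 2 w L) :
    ∃ v ∈ Zsp 2 w, Tendsto (S L) atTop (𝓝 v) := by
  have hL0 := hL
  obtain ⟨h1, h2, h3, h4⟩ := hL
  cases L with
  | nil => exact absurd rfl h1
  | cons x L =>
    obtain ⟨a, z⟩ := x
    have hx := h2 (a, z) (by simp)
    obtain ⟨v, hv⟩ := hcv a z L hx.1 (norm_le_one_of_sq hx.2) (by simpa using h4)
      (fun p hp => ⟨(h2 p (by simp [hp])).1, norm_le_one_of_sq (h2 p (by simp [hp])).2⟩)
    exact ⟨v, Submodule.subset_span ⟨_, hL0, hv⟩, hv⟩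

/-- a finite sum of admissible words converges to an element of the space -/
theorem adm_sum_conv (hcv : S_CV) (w : ℕ) : ∀ (Ls : List (List (ℕ × ℂ))),
    (∀ L ∈ Ls, Adm 2 w L) →
    ∃ v ∈ Zsp 2 w, Tendsto (fun M => (Ls.map (fun K => S K M)).sum) atTop (𝓝 v)
  | [], _ => ⟨0, Submodule.zero_mem _, by simp⟩
  | L :: Ls, h => by
    obtain ⟨v, hv, hv'⟩ := adm_conv hcv w L (h L (by simp))
    obtain ⟨u, hu, hu'⟩ := adm_sum_conv hcv w Ls (fun K hK => h K (by simp [hK]))
    refine ⟨v + u, Submodule.add_mem _ hv hu, ?_⟩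
    simp only [List.map_cons, List.sum_cons]
    exact hv'.add hu'

/-- multiplication by a depth one value -/
theorem mul_mem (hins : S_INS) (hcv : S_CV) (c : ℕ × ℂ) (hc1 : 1 ≤ c.1) (hc2 : c.2 ^ 2 = 1)
    (hc : c ≠ (1, 1)) (u : ℂ) (hu : Tendsto (S [c]) atTop (𝓝 u)) (w : ℕ) (v : ℂ)
    (hv : v ∈ Zsp 2 w) : v * u ∈ Zsp 2 (w + c.1) := by
  unfold Zsp at hv
  induction hv using Submodule.span_induction with
  | mem v hv =>
    obtain ⟨L, hL, hLv⟩ := hv
    obtain ⟨s, hs, hs'⟩ := adm_sum_conv hcv (w + c.1) (ins c L) (ins_adm c hc1 hc2 hc w L hL)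
    have h1 : Tendsto (fun M => S L M * S [c] M) atTop (𝓝 (v * u)) := hLv.mul hu
    have h2 : (fun M => S L M * S [c] M) = fun M => ((ins c L).map (fun K => S K M)).sum := by
      funext M
      exact hins c L M
    rw [h2] at h1
    rw [tendsto_nhds_unique h1 hs']
    exact hs
  | zero => rw [zero_mul]; exact Submodule.zero_mem _
  | add x y _ _ hx hy => rw [add_mul]; exact Submodule.add_mem _ hx hy
  | smul r x _ hx => rw [smul_mul_assoc]; exact Submodule.smul_mem _ _ hx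

/-- finitely many admissible words -/
theorem adm_finite (w : ℕ) : {L : List (ℕ × ℂ) | Adm 2 w L}.Finite := by
  classical
  let A : Set (ℕ × ℂ) := (Set.Icc 1 w) ×ˢ ({1, -1} : Set ℂ)
  have hA : A.Finite := (Set.finite_Icc 1 w).prod (Set.toFinite _)
  have : Finite A := hA
  have h1 : {l : List A | l.length ≤ w}.Finite := List.finite_length_le A w
  refine (h1.image (List.map Subtype.val)).subset ?_
  rintro L ⟨_, h2, h3, _⟩
  have hlen : L.length ≤ w := by
    have := List.length_le_sum_of_one_le (L.map Prod.fst) (by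
      intro i hi
      obtain ⟨p, hp, rfl⟩ := List.mem_map.1 hi
      exact (h2 p hp).1)
    rw [List.length_map, h3] at this
    exact this
  have hmem : ∀ p ∈ L, p ∈ A := by
    intro p hp
    refine ⟨⟨(h2 p hp).1, ?_⟩, ?_⟩
    · rw [← h3]
      exact List.le_sum_of_mem (List.mem_map.2 ⟨p, hp, rfl⟩)
    · have := (h2 p hp).2
      rcases (_root_.sq_eq_one_iff.1 this) with h | h
      · simp [h]
      · simp [h]
  refine ⟨L.attach.map (fun p => ⟨p.1, hmem p.1 p.2⟩), ?_, ?_⟩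
  · simpa using hlen
  · simp only [List.map_map, Function.comp_def]
    exact List.attach_map_subtype_val L

instance zsp_finite (w : ℕ) : Module.Finite ℚ (Zsp 2 w) := by
  classical
  have h : {v : ℂ | ∃ L, Adm 2 w L ∧ Tendsto (S L) atTop (𝓝 v)}.Finite := by
    refine ((adm_finite w).image (fun L => limUnder atTop (S L))).subset ?_
    rintro v ⟨L, hL, hv⟩
    exact ⟨L, hL, hv.limUnder_eq⟩
  exact Module.Finite.iff_fg.2 (Submodule.fg_span h)

/-- the linear algebra -/
theorem alg_of_finrank_le (V W : Submodule ℚ ℂ) [Module.Finite ℚ V] [Module.Finite ℚ W]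
    (a b : ℂ) (_ha : a ≠ 0) (hb : b ≠ 0) (hVa : ∀ v ∈ V, v * a ∈ W) (hVb : ∀ v ∈ V, v * b ∈ W)
    (hV : V ≠ ⊥) (hle : Module.finrank ℚ W ≤ Module.finrank ℚ V) : IsAlgebraic ℚ (a / b) := by
  let fa : V →ₗ[ℚ] W :=
    { toFun := fun v => ⟨v.1 * a, hVa v.1 v.2⟩
      map_add' := by intro x y; ext; simp [add_mul]
      map_smul' := by intro r x; ext; simp }
  let fb : V →ₗ[ℚ] W :=
    { toFun := fun v => ⟨v.1 * b, hVb v.1 v.2⟩
      map_add' := by intro x y; ext; simp [add_mul]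
      map_smul' := by intro r x; ext; simp }
  have hfb : Function.Injective fb := by
    intro x y h
    have h1 : x.1 * b = y.1 * b := congrArg Subtype.val h
    exact Subtype.ext (mul_right_cancel₀ hb h1)
  have heq : Module.finrank ℚ V = Module.finrank ℚ W :=
    le_antisymm (LinearMap.finrank_le_finrank_of_injective hfb) hle
  have hfb' : Function.Bijective fb :=
    ⟨hfb, (LinearMap.injective_iff_surjective_of_finrank_eq_finrank heq).1 hfb⟩
  let e : V ≃ₗ[ℚ] W := LinearEquiv.ofBijective fb hfb'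
  let g : V →ₗ[ℚ] V := e.symm.toLinearMap ∘ₗ fa
  have hg : ∀ v : V, ((g v : V) : ℂ) = (a / b) * (v : ℂ) := by
    intro v
    have h1 : e (g v) = fa v := by simp [g]
    have h2 : ((g v : V) : ℂ) * b = (v : ℂ) * a := congrArg Subtype.val h1
    field_simp
    rw [mul_comm a]
    exact h2
  have hgn : ∀ (n : ℕ) (v : V), (((g ^ n) v : V) : ℂ) = (a / b) ^ n * (v : ℂ) := by
    intro n
    induction n with
    | zero => intro v; simp
    | succ n ih =>
      intro v
      rw [pow_succ', Module.End.mul_apply, hg, ih]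
      ring
  obtain ⟨v, hv, hv0⟩ := (Submodule.ne_bot_iff V).1 hV
  have hp := LinearMap.aeval_self_charpoly g
  refine ⟨g.charpoly, (LinearMap.charpoly_monic g).ne_zero, ?_⟩
  have h3 : (((Polynomial.aeval g g.charpoly) ⟨v, hv⟩ : V) : ℂ)
      = Polynomial.aeval (a / b) g.charpoly * v := by
    rw [Polynomial.aeval_eq_sum_range, Polynomial.aeval_eq_sum_range, Finset.sum_mul,
      LinearMap.sum_apply, Submodule.coe_sum]
    refine Finset.sum_congr rfl (fun i _ => ?_)
    rw [LinearMap.smul_apply, Submodule.coe_smul, hgn, smul_mul_assoc]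
  rw [hp] at h3
  simp only [LinearMap.zero_apply, ZeroMemClass.coe_zero] at h3
  exact (mul_eq_zero.1 h3.symm).resolve_right hv0

theorem step (hins : S_INS) (hcv : S_CV) (habel : S_ABEL) (hP : S_P) (htr : S_TR)
    (hlow : S_LOW) : S_STEP := by
  intro w hw
  have hlog : Tendsto (S [(1, -1)]) atTop (𝓝 (-((Real.log 2 : ℝ) : ℂ))) := by
    have h := habel 0 (-1) (by simp) (by norm_num)
    simp only [List.replicate_zero, zero_add, pow_one, Nat.factorial_one, Nat.cast_one,
      div_one] at h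
    have h2 : (1 : ℂ) - -1 = ((2 : ℝ) : ℂ) := by norm_num
    rw [h2, ← Complex.ofReal_log (by norm_num)] at h
    exact h
  have hpi : Tendsto (S [(2, 1)]) atTop (𝓝 ((Real.pi : ℂ) ^ 2 / 6)) := hP.1
  have hne1 : ((1 : ℕ), (-1 : ℂ)) ≠ (1, 1) := by
    intro h
    have := congrArg Prod.snd h
    norm_num at this
  have hne2 : ((2 : ℕ), (1 : ℂ)) ≠ (1, 1) := by
    intro h
    have := congrArg Prod.fst h
    norm_num at this
  -- the two maps
  have hA : ∀ v ∈ Zsp 2 w, v * ((Real.log 2 : ℝ) : ℂ) ^ 2 ∈ Zsp 2 (w + 2) := by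
    intro v hv
    have h1 := mul_mem hins hcv (1, -1) le_rfl (by norm_num) hne1 _ hlog w v hv
    have h2 := mul_mem hins hcv (1, -1) le_rfl (by norm_num) hne1 _ hlog _ _ h1
    have h3 : v * -((Real.log 2 : ℝ) : ℂ) * -((Real.log 2 : ℝ) : ℂ)
        = v * ((Real.log 2 : ℝ) : ℂ) ^ 2 := by ring
    rw [h3] at h2
    exact h2
  have hB : ∀ v ∈ Zsp 2 w, v * (Real.pi : ℂ) ^ 2 ∈ Zsp 2 (w + 2) := by
    intro v hv
    have h1 := mul_mem hins hcv (2, 1) (by norm_num) (by norm_num) hne2 _ hpi w v hv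
    have h2 := Submodule.smul_mem _ (6 : ℚ) h1
    have h3 : (6 : ℚ) • (v * ((Real.pi : ℂ) ^ 2 / 6)) = v * (Real.pi : ℂ) ^ 2 := by
      rw [Algebra.smul_def]
      simp
      ring
    rw [h3] at h2
    exact h2
  have hlog0 : ((Real.log 2 : ℝ) : ℂ) ≠ 0 := by
    exact_mod_cast (Real.log_pos (by norm_num)).ne'
  have hpi0 : (Real.pi : ℂ) ≠ 0 := by exact_mod_cast Real.pi_ne_zero
  -- V is nonzero
  have hV : Zsp 2 w ≠ ⊥ := by
    intro h
    have h1 := hlow w hw
    rw [h, rank_bot] at h1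
    have h2 : w / 2 + 1 ≤ 0 := by exact_mod_cast h1
    omega
  by_contra hcon
  have hle : Module.finrank ℚ (Zsp 2 (w + 2)) ≤ Module.finrank ℚ (Zsp 2 w) := by
    by_contra hlt
    apply hcon
    rw [← Module.finrank_eq_rank, ← Module.finrank_eq_rank]
    exact_mod_cast Nat.succ_le_of_lt (not_le.1 hlt)
  have halg := alg_of_finrank_le (Zsp 2 w) (Zsp 2 (w + 2)) (((Real.log 2 : ℝ) : ℂ) ^ 2)
    ((Real.pi : ℂ) ^ 2) (pow_ne_zero 2 hlog0) (pow_ne_zero 2 hpi0) hA hB hV hle
  apply htr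
  have h1 : ((Real.log 2 : ℝ) : ℂ) ^ 2 / (Real.pi : ℂ) ^ 2
      = algebraMap ℝ ℂ ((Real.log 2 / Real.pi) ^ 2) := by
    simp [div_pow]
  rw [h1, isAlgebraic_algebraMap_iff (algebraMap ℝ ℂ).injective] at halg
  exact halg.of_pow (by norm_num)

end Pool.Agent.W970.MC
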